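import Pool.Agent.Q30.EB.Ord

/-!
# A finitely generated branch group with an Engel type iterated identity and an element of
infinite order

The word is the commutator of the first letter with its conjugate by the second letter.  The group
acts on the rooted tree of words over `(ZMod 65) ^ 32`; it is generated by the translations of the
first letter and by one directed automorphism.
-/

namespace Pool.Agent.Results.MP_019d96_al.NonTorsionBranch

open Q30.EB

/-- The word `word` is nontrivial, and there are a finite alphabet `X` with at least two letters
and a finitely generated branch group `G` acting on the rooted tree of words over `X` which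
satisfies the Engel type iterated identity `word` and has an element of infinite order. -/
theorem result : word ≠ 1 ∧
    ∃ (X : Type) (_ : Fintype X) (G : Subgroup (Equiv.Perm (List X))),
      2 ≤ Fintype.card X ∧ IsBranch G ∧ G.FG ∧ SatisfiesEngel (N := 1) word G ∧
        ∃ g : G, ∀ k : ℕ, 0 < k → g ^ k ≠ 1 := by
  refine ⟨word_ne_one, V 32 65, inferInstance, G 32 65, ?_, isBranch (by norm_num) (by norm_num),
    G_fg, satisfies le_rfl (by norm_num), ⟨gg 32 65, gg_mem⟩, ?_⟩
  · rw [Fintype.card_fun, ZMod.card, Fintype.card_fin]
    exact le_trans (by norm_num) (Nat.le_self_pow (by norm_num) 65)
  · intro k hk h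
    apply gg_infinite (r := 32) (n := 65) (by norm_num) (by norm_num) k hk
    have h1 := congrArg (Subtype.val) h
    simpa using h1

end Pool.Agent.Results.MP_019d96_al.NonTorsionBranch
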